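import Pool.Agent.H13.NS

open Filter

namespace Pool.Agent.Results.MP_2734af_lc.NoMultiple

open Pool.Agent.H13.NS

theorem result : ∃ (I : Type 1) (W : Ultrafilter I), Enl W ∧ ∃ F G : Ultrafilter ℕ+, TDvd F G ∧
    ∃ x ∈ monad W F, ∀ y ∈ monad W G, ¬ ∃ z, y = x * z := by
  obtain ⟨H, h1, h2⟩ := exists_gen
  obtain ⟨I, W, π, hE, hπ, hW⟩ := exists_enl (H.map Prod.fst)
  let x : ℕ → ℕ+ := fun n => pr (2 * n + 1)
  let q : ℕ × ℕ → ℕ+ := fun s => x s.1 * pr (2 * s.2)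
  have hq : ∀ n s, x n ∣ q s → n = s.1 := by
    intro n s h
    rw [PNat.dvd_iff] at h
    rcases ((pr_prime _).dvd_mul).1 h with h | h <;> have := pr_dvd h <;> omega
  refine ⟨I, W, hE, (H.map Prod.fst).map x, H.map q, fun A hA => ?_,
    (x ∘ π : I → ℕ+), fun A hA => ?_, fun y hy ⟨z, hz⟩ => ?_⟩
  · exact mem_of_superset (f := (H : Filter (ℕ × ℕ))) hA fun s hs => ⟨x s.1, hs, dvd_mul_right _ _⟩
  · rw [← hπ] at hA
    exact hA
  · induction y using Germ.inductionOn with | _ f => ?_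
    induction z using Germ.inductionOn with | _ g => ?_
    have hz' : ∀ᶠ i in (W : Filter I), f i = x (π i) * g i := Germ.coe_eq.1 hz
    have hd : ∀ᶠ i in (W : Filter I), x (π i) ∣ f i := hz'.mono fun i hi => ⟨_, hi⟩
    have h0 : ∀ᶠ i in (W : Filter I), f i ∈ q '' {s | s.2 ≤ s.1} :=
      hy _ (image_mem_map (f := (H : Filter (ℕ × ℕ))) h1)
    obtain ⟨c, hc⟩ := hW f (fun n => (fun j => q (n, j)) '' Set.Iic n)
      (fun n => (Set.finite_Iic _).image _) ((h0.and hd).mono fun i ⟨⟨s, a1, a2⟩, a3⟩ => by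
        rw [← a2] at a3
        rw [hq _ _ a3]
        exact ⟨s.2, a1, a2⟩)
    have hA : q '' {s | q s = c s.1}ᶜ ∈ H.map q := by
      refine image_mem_map (f := (H : Filter (ℕ × ℕ))) (h2 {s | q s = c s.1} fun n j j' a b => ?_)
      have h4 : pr (2 * j) = pr (2 * j') := mul_left_cancel (a.trans b.symm)
      have := pr_dvd (a := 2 * j) (b := 2 * j') (by rw [h4])
      omega
    have h3 : ∀ᶠ i in (W : Filter I), f i ∈ q '' {s | q s = c s.1}ᶜ := hy _ hA
    obtain ⟨i, ⟨s, a1, a2⟩, a3, a4⟩ := (h3.and (hc.and hd)).exists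
    rw [← a2] at a4
    exact a1 (by rw [Set.mem_ofPred_eq, ← hq _ _ a4, a2, a3])

end Pool.Agent.Results.MP_2734af_lc.NoMultiple
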